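import Pool.Agent.J6H4.TR.Lift

/-!
Linear groups: the regular functions on a subgroup of `GL_n(k)`, and its unipotent elements.
-/

set_option autoImplicit false
set_option linter.unusedSectionVars false

namespace Pool.Agent.J6H4.TR

open Matrix

variable {k : Type} [Field k] {n : ℕ}

/-- The regular functions on a subgroup `G` of `GL_n(k)`: the polynomials in the entries of `g` and
of `g⁻¹`. -/
def regular (G : Subgroup (GL (Fin n) k)) : Subalgebra k (G → k) :=
  Algebra.adjoin k ({f | ∃ i j, f = fun g : G => (g.1 : Matrix (Fin n) (Fin n) k) i j} ∪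
    {f | ∃ i j, f = fun g : G => (g⁻¹.1 : Matrix (Fin n) (Fin n) k) i j})

/-- The unipotent elements of `B`. -/
def unipotent {G : Subgroup (GL (Fin n) k)} (B : Subgroup G) : Set G :=
  {u | u ∈ B ∧ ∃ m : ℕ, ((u.1 : Matrix (Fin n) (Fin n) k) - 1) ^ m = 0}

variable (G : Subgroup (GL (Fin n) k))

lemma entry_mem (i j : Fin n) : (fun g : G => (g.1 : Matrix (Fin n) (Fin n) k) i j) ∈ regular G :=
  Algebra.subset_adjoin (Or.inl ⟨i, j, rfl⟩)

lemma entry_inv_mem (i j : Fin n) :
    (fun g : G => (g⁻¹.1 : Matrix (Fin n) (Fin n) k) i j) ∈ regular G :=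
  Algebra.subset_adjoin (Or.inr ⟨i, j, rfl⟩)

lemma mul_entry (g h : G) (i j : Fin n) : ((g * h).1 : Matrix (Fin n) (Fin n) k) i j =
    ∑ l, (g.1 : Matrix (Fin n) (Fin n) k) i l * (h.1 : Matrix (Fin n) (Fin n) k) l j := by
  rw [← Matrix.mul_apply]
  rfl

lemma regular_inv (f : G → k) (hf : f ∈ regular G) : (fun g => f g⁻¹) ∈ regular G := by
  unfold regular at hf
  induction hf using Algebra.adjoin_induction with
  | mem f h =>
    rcases h with ⟨i, j, rfl⟩ | ⟨i, j, rfl⟩
    · exact entry_inv_mem G i j
    · simp only [inv_inv]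
      exact entry_mem G i j
  | algebraMap r => exact (regular G).algebraMap_mem r
  | add a b _ _ h1 h2 => exact (regular G).add_mem h1 h2
  | mul a b _ _ h1 h2 => exact (regular G).mul_mem h1 h2

/-- left translations preserve the regular functions -/
lemma regular_transStable : TransStable (regular G) := by
  intro f hf h
  unfold regular at hf
  induction hf using Algebra.adjoin_induction with
  | mem f hf =>
    rcases hf with ⟨i, j, rfl⟩ | ⟨i, j, rfl⟩
    · have e : trans k G h (fun g : G => (g.1 : Matrix (Fin n) (Fin n) k) i j) =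
          ∑ l, (h⁻¹.1 : Matrix (Fin n) (Fin n) k) i l •
            fun g : G => (g.1 : Matrix (Fin n) (Fin n) k) l j := by
        funext g
        rw [trans_apply, mul_entry, Finset.sum_apply]
        rfl
      rw [e]
      exact Subalgebra.sum_mem _ fun l _ => Subalgebra.smul_mem _ (entry_mem G l j) _
    · have e : trans k G h (fun g : G => (g⁻¹.1 : Matrix (Fin n) (Fin n) k) i j) =
          ∑ l, (h.1 : Matrix (Fin n) (Fin n) k) l j •
            fun g : G => (g⁻¹.1 : Matrix (Fin n) (Fin n) k) i l := by
        funext g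
        rw [trans_apply, _root_.mul_inv_rev, inv_inv, mul_entry, Finset.sum_apply]
        exact Finset.sum_congr rfl fun l _ => mul_comm _ _
      rw [e]
      exact Subalgebra.sum_mem _ fun l _ => Subalgebra.smul_mem _ (entry_inv_mem G i l) _
  | algebraMap r => exact (regular G).algebraMap_mem r
  | add a b _ _ h1 h2 =>
    rw [map_add]
    exact (regular G).add_mem h1 h2
  | mul a b _ _ h1 h2 => exact (regular G).mul_mem h1 h2

lemma regMaps_const {O : Subalgebra k (G → k)} (w : G → k) :
    (fun _ => w) ∈ RegMaps O (G → k) := by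
  have := regMaps_mk (O := O) O.one_mem w
  simpa using this

/-- left translation of a regular function is a regular map -/
lemma regular_trans (f : G → k) (hf : f ∈ regular G) :
    (fun h => trans k G h f) ∈ RegMaps (regular G) (G → k) := by
  unfold regular at hf
  induction hf using Algebra.adjoin_induction with
  | mem f hf =>
    rcases hf with ⟨i, j, rfl⟩ | ⟨i, j, rfl⟩
    · have e : (fun h => trans k G h (fun g : G => (g.1 : Matrix (Fin n) (Fin n) k) i j)) =
          ∑ l, fun h : G => (h⁻¹.1 : Matrix (Fin n) (Fin n) k) i l •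
            fun g : G => (g.1 : Matrix (Fin n) (Fin n) k) l j := by
        funext h g
        rw [trans_apply, mul_entry, Finset.sum_apply, Finset.sum_apply]
        rfl
      rw [e]
      exact Submodule.sum_mem _ fun l _ => regMaps_mk (entry_inv_mem G i l) _
    · have e : (fun h => trans k G h (fun g : G => (g⁻¹.1 : Matrix (Fin n) (Fin n) k) i j)) =
          ∑ l, fun h : G => (h.1 : Matrix (Fin n) (Fin n) k) l j •
            fun g : G => (g⁻¹.1 : Matrix (Fin n) (Fin n) k) i l := by
        funext h g
        rw [trans_apply, _root_.mul_inv_rev, inv_inv, mul_entry, Finset.sum_apply, Finset.sum_apply]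
        exact Finset.sum_congr rfl fun l _ => mul_comm _ _
      rw [e]
      exact Submodule.sum_mem _ fun l _ => regMaps_mk (entry_mem G l j) _
  | algebraMap r => exact regMaps_const G (algebraMap k (G → k) r)
  | add a b _ _ h1 h2 =>
    simp only [map_add]
    exact (RegMaps (regular G) (G → k)).add_mem h1 h2
  | mul a b _ _ h1 h2 => exact regMaps_mul h1 h2

/-- regular characters are trivial on unipotent elements, in characteristic `p` -/
lemma char_unipotent (p : ℕ) [Fact p.Prime] [CharP k p] {B : Subgroup G}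
    (χ : B →* k) (u : G) (hu : u ∈ unipotent B) : ∃ h : u ∈ B, χ ⟨u, h⟩ = 1 := by
  obtain ⟨h, m, hm⟩ := hu
  refine ⟨h, ?_⟩
  have h1 : ((u.1 : Matrix (Fin n) (Fin n) k)) ^ p ^ m = 1 := by
    have h2 : ((u.1 : Matrix (Fin n) (Fin n) k) - 1) ^ p ^ m = 0 :=
      pow_eq_zero_of_le (Nat.lt_pow_self (Fact.out : p.Prime).one_lt).le hm
    rcases isEmpty_or_nonempty (Fin n) with h0 | h0
    · exact Subsingleton.elim _ _
    have : CharP (Matrix (Fin n) (Fin n) k) p := Matrix.charP p
    rw [sub_pow_char_pow_of_commute p m (Commute.one_right _), one_pow, sub_eq_zero] at h2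
    exact h2
  have h3 : u ^ p ^ m = 1 := by
    apply Subtype.ext
    apply Units.ext
    exact h1
  have h4 : χ ⟨u, h⟩ ^ p ^ m = 1 := by
    rw [← map_pow]
    have : (⟨u, h⟩ : B) ^ p ^ m = 1 := Subtype.ext h3
    rw [this, map_one]
  have h5 : (χ ⟨u, h⟩ - 1) ^ p ^ m = 0 := by
    rw [sub_pow_char_pow, h4, one_pow, sub_self]
  exact sub_eq_zero.1 (pow_eq_zero_iff (pow_ne_zero _ (Fact.out : p.Prime).ne_zero) |>.1 h5)

theorem basics (p : ℕ) [Fact p.Prime] [CharP k p] (B : Subgroup G) :
    Basics (regular G) B (unipotent B) where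
  inv := regular_inv G
  trans := regular_trans G
  unip χ u hu := char_unipotent G p χ.1 u hu

end Pool.Agent.J6H4.TR
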