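import Mathlib

/-!
# Rational modules, induced modules, good filtrations

`G` is a group with an algebra `O` of functions `G → k` (the regular functions of a linear algebraic
group), `B` is a subgroup of `G` and `U` is a subset (the unipotent elements of the Borel subgroup
`B`). Representations are `k`-linear representations of the group `G`.
-/

set_option autoImplicit false

namespace Pool.Agent.J6H4.TR

open TensorProduct

section

variable {k : Type} [Field k] {G : Type} [Group G]

/-- The span of the functions `g ↦ f(g) w`, `f ∈ O` regular, `w ∈ V`. -/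
def RegMaps (O : Subalgebra k (G → k)) (V : Type) [AddCommGroup V] [Module k V] :
    Submodule k (G → V) :=
  Submodule.span k {F | ∃ f ∈ O, ∃ w : V, F = fun g => f g • w}

/-- `V` is a rational `G`-module: for every `v` there are regular functions `f_i` and vectors `w_i`
with `g v = ∑ f_i(g) w_i` for all `g`. -/
def Rational (O : Subalgebra k (G → k)) {V : Type} [AddCommGroup V] [Module k V]
    (ρ : Representation k G V) : Prop :=
  ∀ v : V, (fun g => ρ g v) ∈ RegMaps O V

/-- The linear map `f` is `G`-equivariant. -/
def Eqv {V W : Type} [AddCommGroup V] [Module k V] [AddCommGroup W] [Module k W]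
    (ρ : Representation k G V) (σ : Representation k G W) (f : V →ₗ[k] W) : Prop :=
  ∀ g v, f (ρ g v) = σ g (f v)

/-- The weights: the regular characters of `B`. -/
abbrev Weight (O : Subalgebra k (G → k)) (B : Subgroup G) : Type :=
  {χ : B →* k // ∃ f ∈ O, ∀ b : B, f b = χ b}

/-- `v` is a `B`-semi-invariant vector of weight `χ`. -/
def IsEig {O : Subalgebra k (G → k)} {B : Subgroup G} (χ : Weight O B) {V : Type}
    [AddCommGroup V] [Module k V] (ρ : Representation k G V) (v : V) : Prop :=
  ∀ b : B, ρ b v = χ.1 b • v

/-- `v` is invariant under the elements of `U`. -/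
def UInv (U : Set G) {V : Type} [AddCommGroup V] [Module k V] (ρ : Representation k G V) (v : V) :
    Prop :=
  ∀ u ∈ U, ρ u v = v

/-- The action of `G` on the functions on `G`: `(h f)(g) = f(h⁻¹ g)`. -/
def trans (k : Type) [Field k] (G : Type) [Group G] : Representation k G (G → k) where
  toFun h :=
    { toFun := fun f g => f (h⁻¹ * g)
      map_add' := fun _ _ => rfl
      map_smul' := fun _ _ => rfl }
  map_one' := by ext; simp
  map_mul' a b := by
    refine LinearMap.ext fun f => funext fun g => ?_
    simp [mul_assoc]

lemma trans_apply (h : G) (f : G → k) (g : G) : trans k G h f g = f (h⁻¹ * g) := rfl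

/-- The induced module `∇ = ind_B^G(χ⁻¹)`: the regular functions with `f(g b) = χ(b) f(g)`. -/
def Ind {O : Subalgebra k (G → k)} {B : Subgroup G} (χ : Weight O B) : Submodule k (G → k) where
  carrier := {f | f ∈ O ∧ ∀ (g : G) (b : B), f (g * b) = χ.1 b * f g}
  zero_mem' := ⟨O.zero_mem, fun g b => by simp⟩
  add_mem' := by
    rintro a b ⟨h1, h2⟩ ⟨h3, h4⟩
    exact ⟨O.add_mem h1 h3, fun g c => by simp [h2, h4, mul_add]⟩
  smul_mem' := by
    rintro c a ⟨h1, h2⟩
    refine ⟨O.smul_mem h1 c, fun g b => ?_⟩
    simp only [Pi.smul_apply, smul_eq_mul, h2]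
    ring

/-- left translations preserve the algebra `O` -/
def TransStable (O : Subalgebra k (G → k)) : Prop := ∀ f ∈ O, ∀ h : G, trans k G h f ∈ O

lemma ind_stable {O : Subalgebra k (G → k)} (hO : TransStable O) {B : Subgroup G}
    (χ : Weight O B) (h : G) : Ind χ ≤ (Ind χ).comap (trans k G h) := by
  rintro f ⟨h1, h2⟩
  refine ⟨hO f h1 h, fun g b => ?_⟩
  rw [trans_apply, trans_apply, ← mul_assoc, h2]

/-- The induced module, as a representation. -/
def indRep {O : Subalgebra k (G → k)} (hO : TransStable O) {B : Subgroup G} (χ : Weight O B) :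
    Representation k G (Ind χ) :=
  (trans k G).subrepresentation (Ind χ) (ind_stable hO χ)

/-- The Weyl module: the dual of the induced module. -/
abbrev weylRep {O : Subalgebra k (G → k)} (hO : TransStable O) {B : Subgroup G} (χ : Weight O B) :
    Representation k G (Module.Dual k (Ind χ)) :=
  (indRep hO χ).dual

/-- `V` has an exhaustive ascending chain `0 = N_0 ⊆ N_1 ⊆ ⋯` of submodules such that for each `i`
either `N_(i+1) = N_i` or `N_(i+1) / N_i` is isomorphic to some `X j`. -/
def Filtered {I : Type} {X : I → Type} [∀ i, AddCommGroup (X i)] [∀ i, Module k (X i)]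
    (σ : ∀ i, Representation k G (X i)) {V : Type} [AddCommGroup V] [Module k V]
    (ρ : Representation k G V) : Prop :=
  ∃ N : ℕ → Submodule k V, N 0 = ⊥ ∧ (∀ v, ∃ i, v ∈ N i) ∧ (∀ i g, ∀ v ∈ N i, ρ g v ∈ N i) ∧
    ∀ i, N i ≤ N (i + 1) ∧ (N (i + 1) = N i ∨ ∃ (j : I) (f : N (i + 1) →ₗ[k] X j),
      Function.Surjective f ∧ (∀ x, f x = 0 ↔ (x : V) ∈ N i) ∧
      ∀ (g : G) (x y : N (i + 1)), (y : V) = ρ g x → f y = σ j g (f x))

/-- `V` has a good filtration. -/
def Good {O : Subalgebra k (G → k)} (hO : TransStable O) (B : Subgroup G) {V : Type}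
    [AddCommGroup V] [Module k V] (ρ : Representation k G V) : Prop :=
  Filtered (fun χ : Weight O B => indRep hO χ) ρ

/-- `V` has a filtration by Weyl modules. -/
def WeylFiltered {O : Subalgebra k (G → k)} (hO : TransStable O) (B : Subgroup G) {V : Type}
    [AddCommGroup V] [Module k V] (ρ : Representation k G V) : Prop :=
  Filtered (fun χ : Weight O B => weylRep hO χ) ρ

/-- `V` is a tilting module. -/
structure Tilting {O : Subalgebra k (G → k)} (hO : TransStable O) (B : Subgroup G) {V : Type}
    [AddCommGroup V] [Module k V] (ρ : Representation k G V) : Prop where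
  finite : Module.Finite k V
  rational : Rational O ρ
  good : Good hO B ρ
  weyl : WeylFiltered hO B ρ

/-- The kernel of `φ` is a `G`-submodule which has a good filtration. -/
def KerGood {O : Subalgebra k (G → k)} (hO : TransStable O) (B : Subgroup G) {P M : Type}
    [AddCommGroup P] [Module k P] [AddCommGroup M] [Module k M] (ρ : Representation k G P)
    (φ : P →ₗ[k] M) : Prop :=
  ∃ h : ∀ g, LinearMap.ker φ ≤ (LinearMap.ker φ).comap (ρ g),
    Good hO B (ρ.subrepresentation (LinearMap.ker φ) h)

/-- `0 → X → E → W → 0` is an exact sequence of `G`-modules. -/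
structure ShortExact {X E W : Type} [AddCommGroup X] [Module k X] [AddCommGroup E] [Module k E]
    [AddCommGroup W] [Module k W] (ξ : Representation k G X) (ε : Representation k G E)
    (ω : Representation k G W) (i : X →ₗ[k] E) (q : E →ₗ[k] W) : Prop where
  eqv_i : Eqv ξ ε i
  eqv_q : Eqv ε ω q
  inj : Function.Injective i
  surj : Function.Surjective q
  exact : ∀ e, q e = 0 ↔ ∃ x, i x = e

/-- `G` acts on the algebra `S` by algebra automorphisms. -/
def ByAutomorphisms {S : Type} [CommRing S] [Algebra k S] (σ : Representation k G S) : Prop :=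
  ∀ g, σ g 1 = 1 ∧ ∀ a b, σ g (a * b) = σ g a * σ g b

/-! ### Published theorems

Let `G` be a connected reductive group (with regular functions `O`) over an algebraically closed field,
`B` a Borel subgroup, and `U` the set of the unipotent elements of `B`. -/

section

variable (O : Subalgebra k (G → k)) (hO : TransStable O) (B : Subgroup G) (U : Set G)

/-- The induced modules are finite-dimensional. -/
def FiniteInd : Prop := ∀ χ : Weight O B, Module.Finite k (Ind χ)

/-- Lie-Kolchin: a nonzero rational module contains a `B`-stable line. -/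
def LieKolchin : Prop :=
  ∀ (V : Type) [AddCommGroup V] [Module k V] (ρ : Representation k G V),
    Rational O ρ → Nontrivial V → ∃ (χ : Weight O B) (v : V), v ≠ 0 ∧ IsEig χ ρ v

/-- The torus `B / U` acts diagonalizably on the `U`-invariants of a rational module. -/
def TorusDiagonalizable : Prop :=
  ∀ (V : Type) [AddCommGroup V] [Module k V] (ρ : Representation k G V),
    Rational O ρ → ∀ v, UInv U ρ v → v ∈ Submodule.span k {w | ∃ χ : Weight O B, IsEig χ ρ w}

/-- Cline, Parshall, Scott, van der Kallen: `Ext^1(W, M) = 0` if `W` is finite-dimensional with a Weyl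
filtration and `M` has a good filtration, that is, homomorphisms to `M` extend along extensions
by `W`. -/
def ExtOneVanishing : Prop :=
  ∀ (X E W M : Type) [AddCommGroup X] [Module k X] [AddCommGroup E] [Module k E]
    [AddCommGroup W] [Module k W] [AddCommGroup M] [Module k M] (ξ : Representation k G X)
    (ε : Representation k G E) (ω : Representation k G W) (μ : Representation k G M)
    (i : X →ₗ[k] E) (q : E →ₗ[k] W), Rational O ξ → Rational O ε → Rational O ω → Rational O μ →
    ShortExact ξ ε ω i q → Module.Finite k W → WeylFiltered hO B ω → Good hO B μ →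
    ∀ f : X →ₗ[k] M, Eqv ξ μ f → ∃ F : E →ₗ[k] M, Eqv ε μ F ∧ ∀ x, F (i x) = f x

/-- Donkin's criterion: a rational module `K` of countable dimension has a good filtration if
all extensions of Weyl modules by `K` split. -/
def DonkinCriterion : Prop :=
  ∀ (K : Type) [AddCommGroup K] [Module k K] (κ : Representation k G K),
    Rational O κ → Module.rank k K ≤ Cardinal.aleph0 →
    (∀ (χ : Weight O B) (E : Type) [AddCommGroup E] [Module k E] (ε : Representation k G E)
      (i : K →ₗ[k] E) (q : E →ₗ[k] Module.Dual k (Ind χ)), Rational O ε →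
      ShortExact κ ε (weylRep hO χ) i q →
      ∃ r : E →ₗ[k] K, Eqv ε κ r ∧ ∀ x, r (i x) = x) → Good hO B κ

/-- The quotient of a module with a good filtration by a submodule with a good filtration has a
good filtration. -/
def GoodQuotients : Prop :=
  ∀ (X E W : Type) [AddCommGroup X] [Module k X] [AddCommGroup E] [Module k E]
    [AddCommGroup W] [Module k W] (ξ : Representation k G X)
    (ε : Representation k G E) (ω : Representation k G W)
    (i : X →ₗ[k] E) (q : E →ₗ[k] W), Rational O ξ → Rational O ε → Rational O ω →
    ShortExact ξ ε ω i q → Good hO B ξ → Good hO B ε → Good hO B ω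

/-- Donkin, Mathieu: tensor products of modules with good filtrations have good filtrations. -/
def GoodTensorProducts : Prop :=
  ∀ (V W : Type) [AddCommGroup V] [Module k V] [AddCommGroup W] [Module k W]
    (ρ : Representation k G V) (σ : Representation k G W), Rational O ρ → Rational O σ →
    Good hO B ρ → Good hO B σ → Good hO B (ρ.tprod σ)

/-- Ringel, Donkin: every Weyl module is contained in a tilting module, such that the quotient has
a Weyl filtration. -/
def TiltingExistence : Prop :=
  ∀ χ : Weight O B, ∃ (T W : Type) (_ : AddCommGroup T) (_ : Module k T)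
    (_ : AddCommGroup W) (_ : Module k W) (τ : Representation k G T) (ω : Representation k G W)
    (i : Module.Dual k (Ind χ) →ₗ[k] T) (q : T →ₗ[k] W), Tilting hO B τ ∧ Rational O ω ∧
      ShortExact (weylRep hO χ) τ ω i q ∧ Module.Finite k W ∧ WeylFiltered hO B ω

/-- Hadžiev, Grosshans: the algebra of the `U`-invariants of a finitely generated commutative
algebra with a rational action of `G` is finitely generated. -/
def GrosshansTheorem : Prop :=
  ∀ (A : Type) [CommRing A] [Algebra k A] (α : Representation k G A),
    Algebra.FiniteType k A → Rational O α → ByAutomorphisms α →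
    ∃ F : Finset A, (∀ a ∈ F, UInv U α a) ∧
      ∀ a, UInv U α a → a ∈ Algebra.adjoin k (F : Set A)

/-- The published theorems. -/
structure Facts : Prop where
  finite_ind : FiniteInd O B
  lie_kolchin : LieKolchin O B
  torus : TorusDiagonalizable O B U
  ext_one : ExtOneVanishing O hO B
  criterion : DonkinCriterion O hO B
  quotient : GoodQuotients O hO B
  tensor : GoodTensorProducts O hO B
  tilting : TiltingExistence O hO B
  grosshans : GrosshansTheorem O U

end

end

end Pool.Agent.J6H4.TR
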