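import Pool.Agent.J6H4.TR.Weyl

/-!
Filtrations of modules and of products; tilting modules.
-/

set_option autoImplicit false
set_option linter.unusedSectionVars false

namespace Pool.Agent.J6H4.TR

variable {k : Type} [Field k] {G : Type} [Group G]

section
variable {I : Type} {X : I → Type} [∀ i, AddCommGroup (X i)] [∀ i, Module k (X i)]
  {τ : ∀ i, Representation k G (X i)} {V W : Type} [AddCommGroup V] [Module k V]
  [AddCommGroup W] [Module k W]

variable (τ) in
/-- a step of a filtration -/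
def Step (ρ : Representation k G V) (A A' : Submodule k V) : Prop :=
  A ≤ A' ∧ (A' = A ∨ ∃ (j : I) (f : A' →ₗ[k] X j),
      Function.Surjective f ∧ (∀ x, f x = 0 ↔ (x : V) ∈ A) ∧
      ∀ (g : G) (x y : A'), (y : V) = ρ g x → f y = τ j g (f x))

lemma filtered_self (i : I) : Filtered τ (τ i) := by
  refine ⟨fun n => if n = 0 then ⊥ else ⊤, if_pos rfl, fun v => ⟨1, ?_⟩, ?_, ?_⟩
  · show v ∈ (if 1 = 0 then ⊥ else ⊤ : Submodule k (X i))
    rw [if_neg one_ne_zero]
    exact Submodule.mem_top
  · intro n g v hv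
    by_cases hn : n = 0
    · subst hn
      simp only [if_true, Submodule.mem_bot] at hv ⊢
      rw [hv, map_zero]
    · simp only [if_neg hn]
      exact Submodule.mem_top
  · intro n
    by_cases hn : n = 0
    · subst hn
      simp only [if_true, zero_add, one_ne_zero, if_false]
      refine ⟨bot_le, Or.inr ⟨i, (⊤ : Submodule k (X i)).subtype, fun x => ⟨⟨x, trivial⟩, rfl⟩,
        fun x => Iff.rfl, fun g x y h => h⟩⟩
    · have e1 : (if n = 0 then ⊥ else ⊤ : Submodule k (X i)) = ⊤ := if_neg hn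
      have e2 : (if n + 1 = 0 then ⊥ else ⊤ : Submodule k (X i)) = ⊤ := if_neg (Nat.succ_ne_zero n)
      exact ⟨(e1.trans e2.symm).le, Or.inl (e2.trans e1.symm)⟩

lemma filtered_zero [Subsingleton V] (ρ : Representation k G V) : Filtered τ ρ := by
  refine ⟨fun _ => ⊥, rfl, fun v => ⟨0, ?_⟩, ?_, fun _ => ⟨le_rfl, Or.inl rfl⟩⟩
  · rw [Submodule.mem_bot]
    exact Subsingleton.elim _ _
  · intro n g v hv
    rw [Submodule.mem_bot]
    exact Subsingleton.elim _ _

lemma step_left {ρ : Representation k G V} {σ : Representation k G W} {A A' : Submodule k V}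
    (h : Step τ ρ A A') (C : Submodule k W) : Step τ (ρ.prod σ) (A.prod C) (A'.prod C) := by
  obtain ⟨h1, h2⟩ := h
  refine ⟨Submodule.prod_mono h1 le_rfl, ?_⟩
  rcases h2 with h2 | ⟨j, f, hs, hk, he⟩
  · left
    rw [h2]
  · right
    let p : (A'.prod C) →ₗ[k] A' := ((LinearMap.fst k V W).comp (A'.prod C).subtype).codRestrict A'
      (fun x => x.2.1)
    have hp : ∀ x, ((p x : A') : V) = (x : V × W).1 := fun _ => rfl
    refine ⟨j, f ∘ₗ p, ?_, ?_, ?_⟩
    · intro y
      obtain ⟨x, rfl⟩ := hs y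
      exact ⟨⟨(x.1, 0), ⟨x.2, C.zero_mem⟩⟩, rfl⟩
    · intro x
      show f (p x) = 0 ↔ _
      rw [hk, hp]
      exact ⟨fun h => ⟨h, x.2.2⟩, fun h => h.1⟩
    · intro g x y h
      refine he g (p x) (p y) ?_
      rw [hp, hp, h]
      rfl

lemma step_right {ρ : Representation k G V} {σ : Representation k G W} {A A' : Submodule k W}
    (h : Step τ σ A A') (C : Submodule k V) : Step τ (ρ.prod σ) (C.prod A) (C.prod A') := by
  obtain ⟨h1, h2⟩ := h
  refine ⟨Submodule.prod_mono le_rfl h1, ?_⟩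
  rcases h2 with h2 | ⟨j, f, hs, hk, he⟩
  · left
    rw [h2]
  · right
    let p : (C.prod A') →ₗ[k] A' := ((LinearMap.snd k V W).comp (C.prod A').subtype).codRestrict A'
      (fun x => x.2.2)
    have hp : ∀ x, ((p x : A') : W) = (x : V × W).2 := fun _ => rfl
    refine ⟨j, f ∘ₗ p, ?_, ?_, ?_⟩
    · intro y
      obtain ⟨x, rfl⟩ := hs y
      exact ⟨⟨(0, x.1), ⟨C.zero_mem, x.2⟩⟩, rfl⟩
    · intro x
      show f (p x) = 0 ↔ _
      rw [hk, hp]
      exact ⟨fun h => ⟨x.2.1, h⟩, fun h => h.2⟩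
    · intro g x y h
      refine he g (p x) (p y) ?_
      rw [hp, hp, h]
      rfl

lemma filtered_prod {ρ : Representation k G V} {σ : Representation k G W} (h1 : Filtered τ ρ)
    (h2 : Filtered τ σ) : Filtered τ (ρ.prod σ) := by
  obtain ⟨N, hN0, hNe, hNs, hN⟩ := h1
  obtain ⟨M, hM0, hMe, hMs, hM⟩ := h2
  have hNm : Monotone N := monotone_nat_of_le_succ fun i => (hN i).1
  have hMm : Monotone M := monotone_nat_of_le_succ fun i => (hM i).1
  refine ⟨fun n => (N ((n + 1) / 2)).prod (M (n / 2)), ?_, ?_, ?_, ?_⟩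
  · show (N 0).prod (M 0) = ⊥
    rw [hN0, hM0, Submodule.prod_bot]
  · rintro ⟨v, w⟩
    obtain ⟨i, hi⟩ := hNe v
    obtain ⟨j, hj⟩ := hMe w
    exact ⟨2 * (i + j), hNm (by omega) hi, hMm (by omega) hj⟩
  · rintro n g ⟨v, w⟩ ⟨hv, hw⟩
    exact ⟨hNs _ g v hv, hMs _ g w hw⟩
  · intro n
    rcases Nat.even_or_odd' n with ⟨i, rfl | rfl⟩
    · have e1 : (2 * i + 1) / 2 = i := by omega
      have e2 : (2 * i) / 2 = i := by omega
      have e3 : (2 * i + 1 + 1) / 2 = i + 1 := by omega
      show Step τ (ρ.prod σ) ((N ((2 * i + 1) / 2)).prod (M ((2 * i) / 2)))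
        ((N ((2 * i + 1 + 1) / 2)).prod (M ((2 * i + 1) / 2)))
      rw [e1, e2, e3]
      exact step_left (hN i) (M i)
    · have e1 : (2 * i + 1 + 1) / 2 = i + 1 := by omega
      have e2 : (2 * i + 1) / 2 = i := by omega
      have e3 : (2 * i + 1 + 1 + 1) / 2 = i + 1 := by omega
      show Step τ (ρ.prod σ) ((N ((2 * i + 1 + 1) / 2)).prod (M ((2 * i + 1) / 2)))
        ((N ((2 * i + 1 + 1 + 1) / 2)).prod (M ((2 * i + 1 + 1) / 2)))
      rw [e1, e2, e3]
      exact step_right (hM i) (N (i + 1))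

end

variable {O : Subalgebra k (G → k)} {hO : TransStable O} {B : Subgroup G}
  {V W : Type} [AddCommGroup V] [Module k V] [AddCommGroup W] [Module k W]

lemma tilting_prod {ρ : Representation k G V} {σ : Representation k G W} (h1 : Tilting hO B ρ)
    (h2 : Tilting hO B σ) : Tilting hO B (ρ.prod σ) where
  finite := by
    have := h1.finite
    have := h2.finite
    infer_instance
  rational := rational_prod h1.rational h2.rational
  good := filtered_prod h1.good h2.good
  weyl := filtered_prod h1.weyl h2.weyl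

lemma rational_zero [Subsingleton V] (ρ : Representation k G V) : Rational O ρ := by
  intro v
  have : (fun g => ρ g v) = 0 := funext fun g => Subsingleton.elim _ _
  rw [this]
  exact (RegMaps O V).zero_mem

lemma tilting_zero [Subsingleton V] (ρ : Representation k G V) : Tilting hO B ρ where
  finite := inferInstance
  rational := rational_zero ρ
  good := filtered_zero ρ
  weyl := filtered_zero ρ

end Pool.Agent.J6H4.TR
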