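import Pool.Agent.J6H4.TR.Lift

/-!
The invariants of `U` in a finitely generated `(G, S)`-module are a finitely generated module over the
invariants of `U` in `S`: Grosshans' theorem for the trivial square zero extension `S ⊕ M`.
-/

set_option autoImplicit false
set_option linter.unusedSectionVars false

namespace Pool.Agent.J6H4.TR

variable {k : Type} [Field k] {G : Type} [Group G]
  {O : Subalgebra k (G → k)} {hO : TransStable O} {B : Subgroup G} {U : Set G}

variable {S M : Type} [CommRing S] [Algebra k S] [AddCommGroup M] [Module k M] [Module S M]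
  [IsScalarTower k S M] {σ : Representation k G S} {μ : Representation k G M}

section aux
variable [Module Sᵐᵒᵖ M] [IsCentralScalar S M] [IsScalarTower k Sᵐᵒᵖ M]

/-- the action on `S ⊕ M` -/
noncomputable def tsRep (σ : Representation k G S) (μ : Representation k G M) :
    Representation k G (TrivSqZeroExt S M) := σ.prod μ

lemma tsRep_fst (g : G) (a : TrivSqZeroExt S M) : (tsRep σ μ g a).fst = σ g a.fst := rfl

lemma tsRep_snd (g : G) (a : TrivSqZeroExt S M) : (tsRep σ μ g a).snd = μ g a.snd := rfl

lemma inv_gens_aux (hF : Facts O hO B U) [Algebra.FiniteType k S] [Module.Finite S M]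
    (hσ : Rational O σ) (hμ : Rational O μ) (hS : ByAutomorphisms σ)
    (hM : ∀ g (s : S) (m : M), μ g (s • m) = σ g s • μ g m) :
    ∃ F : Finset M, (∀ m ∈ F, UInv U μ m) ∧ ∀ m, UInv U μ m →
      m ∈ Submodule.span k {x : M | ∃ s : S, UInv U σ s ∧ ∃ f ∈ F, x = s • f} := by
  classical
  have hft : Algebra.FiniteType k (TrivSqZeroExt S M) := by
    have h1 : Module.Finite S (TrivSqZeroExt S M) := Module.Finite.prod (R := S) (M := S) (N := M)
    have h2 : Algebra.FiniteType S (TrivSqZeroExt S M) := inferInstance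
    exact Algebra.FiniteType.trans (S := S) inferInstance h2
  have hrat : Rational O (tsRep σ μ) := rational_prod hσ hμ
  have haut : ByAutomorphisms (tsRep σ μ) := by
    intro g
    refine ⟨TrivSqZeroExt.ext (hS g).1 (map_zero (μ g)), fun a b => TrivSqZeroExt.ext ?_ ?_⟩
    · rw [tsRep_fst, TrivSqZeroExt.fst_mul, TrivSqZeroExt.fst_mul, (hS g).2]
      rfl
    · rw [tsRep_snd, TrivSqZeroExt.snd_mul, TrivSqZeroExt.snd_mul, map_add, op_smul_eq_smul,
        op_smul_eq_smul, hM, hM]
      rfl
  obtain ⟨F, hF1, hF2⟩ := hF.grosshans (TrivSqZeroExt S M) (tsRep σ μ) hft hrat haut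
  refine ⟨F.image TrivSqZeroExt.snd, ?_, fun m hm => ?_⟩
  · intro m hm
    obtain ⟨a, ha, rfl⟩ := Finset.mem_image.1 hm
    intro u hu
    have := hF1 a ha u hu
    exact congrArg TrivSqZeroExt.snd this
  · set Q := Submodule.span k {x : M | ∃ s : S, UInv U σ s ∧ ∃ f ∈ F.image TrivSqZeroExt.snd,
      x = s • f} with hQ
    have hQs : ∀ s : S, UInv U σ s → ∀ x ∈ Q, s • x ∈ Q := by
      intro s hs x hx
      rw [hQ] at hx
      induction hx using Submodule.span_induction with
      | mem x h =>
        obtain ⟨t, ht, f, hf, rfl⟩ := h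
        refine Submodule.subset_span ⟨s * t, fun u hu => ?_, f, hf, by rw [mul_smul]⟩
        rw [(hS u).2, hs u hu, ht u hu]
      | zero =>
        rw [smul_zero]
        exact Q.zero_mem
      | add x y _ _ h1 h2 =>
        rw [smul_add]
        exact Q.add_mem h1 h2
      | smul c x _ h =>
        have : s • c • x = c • s • x := by
          rw [← algebraMap_smul S c x, ← algebraMap_smul S c (s • x), smul_smul, smul_smul, mul_comm]
        rw [this]
        exact Q.smul_mem c h
    have key : ∀ a ∈ Algebra.adjoin k (F : Set (TrivSqZeroExt S M)),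
        UInv U σ a.fst ∧ a.snd ∈ Q := by
      intro a ha
      induction ha using Algebra.adjoin_induction with
      | mem a ha =>
        refine ⟨fun u hu => congrArg TrivSqZeroExt.fst (hF1 a ha u hu), Submodule.subset_span
          ⟨1, fun u _ => (hS u).1, a.snd, Finset.mem_image_of_mem _ ha, (one_smul _ _).symm⟩⟩
      | algebraMap r =>
        refine ⟨fun u _ => ?_, ?_⟩
        · have : (algebraMap k (TrivSqZeroExt S M) r).fst = r • (1 : S) := by
            rw [Algebra.algebraMap_eq_smul_one]
            rfl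
          rw [this, map_smul, (hS u).1]
        · have : (algebraMap k (TrivSqZeroExt S M) r).snd = (0 : M) := by
            rw [Algebra.algebraMap_eq_smul_one, TrivSqZeroExt.snd_smul, TrivSqZeroExt.snd_one,
              smul_zero]
          rw [this]
          exact Q.zero_mem
      | add a b _ _ h1 h2 =>
        exact ⟨(uinv U σ).add_mem h1.1 h2.1, Q.add_mem h1.2 h2.2⟩
      | mul a b _ _ h1 h2 =>
        refine ⟨fun u hu => ?_, ?_⟩
        · rw [TrivSqZeroExt.fst_mul, (hS u).2, h1.1 u hu, h2.1 u hu]
        · rw [TrivSqZeroExt.snd_mul, op_smul_eq_smul]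
          exact Q.add_mem (hQs _ h1.1 _ h2.2) (hQs _ h2.1 _ h1.2)
    have h1 := hF2 (TrivSqZeroExt.inr m) (fun u hu => TrivSqZeroExt.ext (map_zero (σ u)) (hm u hu))
    exact (key _ h1).2

end aux

/-- **generators of the invariants** -/
theorem inv_gens (hF : Facts O hO B U) [Algebra.FiniteType k S] [Module.Finite S M]
    (hσ : Rational O σ) (hμ : Rational O μ) (hS : ByAutomorphisms σ)
    (hM : ∀ g (s : S) (m : M), μ g (s • m) = σ g s • μ g m) :
    ∃ F : Finset M, (∀ m ∈ F, UInv U μ m) ∧ ∀ m, UInv U μ m →
      m ∈ Submodule.span k {x : M | ∃ s : S, UInv U σ s ∧ ∃ f ∈ F, x = s • f} := by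
  let _ : Module Sᵐᵒᵖ M := Module.compHom M ((RingHom.id S).fromOpposite mul_comm)
  have : IsCentralScalar S M := ⟨fun _ _ => rfl⟩
  have : IsScalarTower k Sᵐᵒᵖ M := ⟨fun c s m => by
    show (c • s).unop • m = c • s.unop • m
    rw [MulOpposite.unop_smul, smul_assoc]⟩
  exact inv_gens_aux hF hσ hμ hS hM

end Pool.Agent.J6H4.TR
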