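import Pool.Agent.J6H4.TR.Main
import Pool.Agent.J6H4.TR.Gross

/-!
Tilting presentations of `(G, S)`-modules with a good filtration.
-/

set_option autoImplicit false
set_option linter.unusedSectionVars false

namespace Pool.Agent.J6H4.TR

open TensorProduct

variable {k : Type} [Field k] {G : Type} [Group G]
  {O : Subalgebra k (G → k)} {hO : TransStable O} {B : Subgroup G} {U : Set G}

variable {S M : Type} [CommRing S] [Algebra k S] [AddCommGroup M] [Module k M] [Module S M]
  [IsScalarTower k S M] {σ : Representation k G S} {μ : Representation k G M}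

lemma rank_algebra (k S : Type) [Field k] [CommRing S] [Algebra k S] [Algebra.FiniteType k S] :
    Module.rank k S ≤ Cardinal.aleph0 := by
  obtain ⟨n, f, hf⟩ := Algebra.FiniteType.iff_quotient_mvPolynomial''.1
    (inferInstance : Algebra.FiniteType k S)
  have h1 := LinearMap.rank_le_of_surjective f.toLinearMap hf
  refine h1.trans ?_
  rw [← (MvPolynomial.basisMonomials (Fin n) k).mk_eq_rank'']
  exact Cardinal.mk_le_aleph0

theorem presentation (hB : Basics O B U) (hF : Facts O hO B U) [Algebra.FiniteType k S]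
    [Module.Finite S M] (hσ : Rational O σ) (hμ : Rational O μ) (hS : ByAutomorphisms σ)
    (hM : ∀ g (s : S) (m : M), μ g (s • m) = σ g s • μ g m) (hSg : Good hO B σ)
    (hMg : Good hO B μ) :
    ∃ (T : Type) (_ : AddCommGroup T) (_ : Module k T) (τ : Representation k G T)
      (φ : S ⊗[k] T →ₗ[S] M), Tilting hO B τ ∧ Eqv (σ.tprod τ) μ (φ.restrictScalars k) ∧
      Function.Surjective φ ∧ KerGood hO B (σ.tprod τ) (φ.restrictScalars k) := by
  obtain ⟨F, hF1, hF2⟩ := inv_gens hF hσ hμ hS hM
  obtain ⟨T, _, _, τ, g, hT, hg, hgF⟩ := lift_finset hB hF hμ hMg F hF1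
  let φ : S ⊗[k] T →ₗ[S] M := LinearMap.liftBaseChange S g
  have hφ0 : ∀ s t, φ (s ⊗ₜ t) = s • g t := fun s t => LinearMap.liftBaseChange_tmul _ _ _ _
  have hφ : Eqv (σ.tprod τ) μ (φ.restrictScalars k) := by
    intro h x
    show φ _ = μ h (φ x)
    induction x using TensorProduct.induction_on with
    | zero => simp
    | tmul s t =>
      rw [Representation.tprod_apply, TensorProduct.map_tmul, hφ0, hφ0, hM, hg]
    | add x y hx hy => rw [map_add, map_add, map_add, map_add, hx, hy]
  have := hT.finite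
  have hr : Module.rank k (S ⊗[k] T) ≤ Cardinal.aleph0 := by
    rw [rank_tensorProduct']
    exact (mul_le_mul' (rank_algebra k S) (Module.rank_lt_aleph0 k T).le).trans
      Cardinal.aleph0_mul_aleph0.le
  have hsurj : ∀ m, UInv U μ m → ∃ x, UInv U (σ.tprod τ) x ∧ φ.restrictScalars k x = m := by
    intro m hm
    have h1 := hF2 m hm
    clear hm
    induction h1 using Submodule.span_induction with
    | mem m h =>
      obtain ⟨s, hs, f, hf, rfl⟩ := h
      obtain ⟨t, ht, e⟩ := hgF f hf
      refine ⟨s ⊗ₜ t, fun u hu => ?_, ?_⟩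
      · rw [Representation.tprod_apply, TensorProduct.map_tmul, hs u hu, ht u hu]
      · show φ _ = _
        rw [hφ0, e]
    | zero => exact ⟨0, (uinv U _).zero_mem, map_zero _⟩
    | add a b _ _ h1 h2 =>
      obtain ⟨x, hx, ex⟩ := h1
      obtain ⟨y, hy, ey⟩ := h2
      exact ⟨x + y, (uinv U _).add_mem hx hy, by rw [map_add, ex, ey]⟩
    | smul c a _ h =>
      obtain ⟨x, hx, ex⟩ := h
      exact ⟨c • x, (uinv U _).smul_mem c hx, by rw [map_smul, ex]⟩
  have hP : Rational O (σ.tprod τ) := rational_tprod hσ hT.rational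
  have hPg : Good hO B (σ.tprod τ) := hF.tensor S T σ τ hσ hT.rational hSg hT.good
  exact ⟨T, _, _, τ, φ, hT, hφ, surjective hB hF hP hPg hr hμ hφ hsurj,
    ker_stable hφ, good_ker hB hF hP hPg hr hφ hsurj⟩

end Pool.Agent.J6H4.TR
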