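import Pool.Agent.J6H4.TR.Filt

/-!
Lifting invariant vectors to tilting modules.
-/

set_option autoImplicit false
set_option linter.unusedSectionVars false

namespace Pool.Agent.J6H4.TR

variable {k : Type} [Field k] {G : Type} [Group G]
  {O : Subalgebra k (G → k)} {hO : TransStable O} {B : Subgroup G} {U : Set G}

/-- properties of the regular functions and of the unipotent elements which are proved here -/
structure Basics (O : Subalgebra k (G → k)) (B : Subgroup G) (U : Set G) : Prop where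
  inv : ∀ f ∈ O, (fun g => f g⁻¹) ∈ O
  trans : ∀ f ∈ O, (fun h => trans k G h f) ∈ RegMaps O (G → k)
  unip : ∀ (χ : Weight O B) (u : G), u ∈ U → ∃ h : u ∈ B, χ.1 ⟨u, h⟩ = 1

lemma rational_weyl (hB : Basics O B U) (hF : Facts O hO B U) (χ : Weight O B) :
    Rational O (weylRep hO χ) := by
  have := hF.finite_ind χ
  exact rational_dual (rational_ind hO hB.trans χ) hB.inv

lemma weylFiltered_weyl (χ : Weight O B) : WeylFiltered hO B (weylRep hO χ) :=
  filtered_self χ

variable {M : Type} [AddCommGroup M] [Module k M] {μ : Representation k G M}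

lemma uinv_of_eig (hB : Basics O B U) {χ : Weight O B} {v : M} (hv : IsEig χ μ v) :
    UInv U μ v := by
  intro u hu
  obtain ⟨h1, h2⟩ := hB.unip χ u hu
  have h3 := hv ⟨u, h1⟩
  rw [h2, one_smul] at h3
  exact h3

lemma uinv_map {N : Type} [AddCommGroup N] [Module k N] {ν : Representation k G N}
    {f : M →ₗ[k] N} (hf : Eqv μ ν f) {v : M} (hv : UInv U μ v) : UInv U ν (f v) := by
  intro u hu
  rw [← hf, hv u hu]

/-- the invariants, as a submodule -/
def uinv (U : Set G) (μ : Representation k G M) : Submodule k M where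
  carrier := {v | UInv U μ v}
  zero_mem' u _ := by simp
  add_mem' := by
    intro a b ha hb u hu
    rw [map_add, ha u hu, hb u hu]
  smul_mem' := by
    intro c a ha u hu
    rw [map_smul, ha u hu]

lemma lift_one (hB : Basics O B U) (hF : Facts O hO B U) (hμ : Rational O μ) (hM : Good hO B μ)
    {χ : Weight O B} {v : M} (hv : IsEig χ μ v) :
    ∃ (T : Type) (_ : AddCommGroup T) (_ : Module k T) (τ : Representation k G T)
      (g : T →ₗ[k] M), Tilting hO B τ ∧ Eqv τ μ g ∧ ∃ t, UInv U τ t ∧ g t = v := by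
  obtain ⟨f, hf, hfv⟩ := weyl_univ (hO := hO) hμ hv
  obtain ⟨T, W, _, _, _, _, τ, ω, i, q, hT, hω, hse, hWf, hWF⟩ := hF.tilting χ
  obtain ⟨F, hF1, hF2⟩ := hF.ext_one _ _ _ _ (weylRep hO χ) τ ω μ i q (rational_weyl hB hF χ)
    hT.rational hω hμ hse hWf hWF hM f hf
  refine ⟨T, _, _, τ, F, hT, hF1, i (ev χ), uinv_of_eig hB (eig_map hse.eqv_i (ev_eig χ)), ?_⟩
  rw [hF2, hfv]

lemma lift_inv (hB : Basics O B U) (hF : Facts O hO B U) (hμ : Rational O μ) (hM : Good hO B μ)
    {v : M} (hv : UInv U μ v) :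
    ∃ (T : Type) (_ : AddCommGroup T) (_ : Module k T) (τ : Representation k G T)
      (g : T →ₗ[k] M), Tilting hO B τ ∧ Eqv τ μ g ∧ ∃ t, UInv U τ t ∧ g t = v := by
  have h := hF.torus M μ hμ v hv
  clear hv
  induction h using Submodule.span_induction with
  | mem v h =>
    obtain ⟨χ, hχ⟩ := h
    exact lift_one hB hF hμ hM hχ
  | zero =>
    refine ⟨PUnit, inferInstance, inferInstance, 1, 0, tilting_zero _, fun g v => by simp, 0,
      fun u _ => by simp, by simp⟩
  | add x y _ _ h1 h2 =>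
    obtain ⟨T1, _, _, τ1, g1, hT1, hg1, t1, ht1, e1⟩ := h1
    obtain ⟨T2, _, _, τ2, g2, hT2, hg2, t2, ht2, e2⟩ := h2
    refine ⟨T1 × T2, inferInstance, inferInstance, τ1.prod τ2, g1.coprod g2, tilting_prod hT1 hT2,
      ?_, (t1, t2), ?_, ?_⟩
    · rintro g ⟨a, b⟩
      show g1 (τ1 g a) + g2 (τ2 g b) = μ g (g1 a + g2 b)
      rw [hg1, hg2, map_add]
    · intro u hu
      exact Prod.ext (ht1 u hu) (ht2 u hu)
    · show g1 t1 + g2 t2 = x + y
      rw [e1, e2]
  | smul c x _ h =>
    obtain ⟨T1, _, _, τ1, g1, hT1, hg1, t1, ht1, e1⟩ := h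
    refine ⟨T1, _, _, τ1, g1, hT1, hg1, c • t1, (uinv U τ1).smul_mem c ht1, ?_⟩
    rw [map_smul, e1]

lemma lift_finset (hB : Basics O B U) (hF : Facts O hO B U) (hμ : Rational O μ)
    (hM : Good hO B μ) (F : Finset M) (hv : ∀ v ∈ F, UInv U μ v) :
    ∃ (T : Type) (_ : AddCommGroup T) (_ : Module k T) (τ : Representation k G T)
      (g : T →ₗ[k] M), Tilting hO B τ ∧ Eqv τ μ g ∧ ∀ v ∈ F, ∃ t, UInv U τ t ∧ g t = v := by
  classical
  induction F using Finset.induction_on with
  | empty =>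
    exact ⟨PUnit, inferInstance, inferInstance, 1, 0, tilting_zero _, fun g v => by simp,
      fun v hv => by simp at hv⟩
  | insert a F ha ih =>
    obtain ⟨T1, _, _, τ1, g1, hT1, hg1, t1, ht1, e1⟩ :=
      lift_inv hB hF hμ hM (hv a (Finset.mem_insert_self _ _))
    obtain ⟨T2, _, _, τ2, g2, hT2, hg2, h2⟩ := ih fun v h => hv v (Finset.mem_insert_of_mem h)
    refine ⟨T1 × T2, inferInstance, inferInstance, τ1.prod τ2, g1.coprod g2, tilting_prod hT1 hT2,
      ?_, ?_⟩
    · rintro g ⟨a, b⟩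
      show g1 (τ1 g a) + g2 (τ2 g b) = μ g (g1 a + g2 b)
      rw [hg1, hg2, map_add]
    · intro v hv
      rcases Finset.mem_insert.1 hv with rfl | hv
      · refine ⟨(t1, 0), fun u hu => Prod.ext (ht1 u hu) (by simp), ?_⟩
        show g1 t1 + g2 0 = v
        rw [map_zero, add_zero, e1]
      · obtain ⟨t, ht, e⟩ := h2 v hv
        refine ⟨(0, t), fun u hu => Prod.ext (by simp) (ht u hu), ?_⟩
        show g1 0 + g2 t = v
        rw [map_zero, zero_add, e]

end Pool.Agent.J6H4.TR
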