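import Pool.Agent.J6H4.TR.Lift

/-!
The main argument: a morphism `S ⊗ T → M` of `(G, S)`-modules which is surjective on the invariants
of `U` is surjective, and its kernel has a good filtration.
-/

set_option autoImplicit false
set_option linter.unusedSectionVars false

namespace Pool.Agent.J6H4.TR

open TensorProduct

variable {k : Type} [Field k] {G : Type} [Group G]
  {O : Subalgebra k (G → k)} {hO : TransStable O} {B : Subgroup G} {U : Set G}

variable {P M : Type} [AddCommGroup P] [Module k P] [AddCommGroup M] [Module k M]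
  {ρ : Representation k G P} {μ : Representation k G M}

/-- the kernel is stable -/
lemma ker_stable {φ : P →ₗ[k] M} (hφ : Eqv ρ μ φ) (g : G) :
    LinearMap.ker φ ≤ (LinearMap.ker φ).comap (ρ g) := by
  intro x hx
  show φ (ρ g x) = 0
  rw [hφ, show φ x = 0 from hx, map_zero]

/-- the range is stable -/
lemma range_stable {φ : P →ₗ[k] M} (hφ : Eqv ρ μ φ) (g : G) :
    LinearMap.range φ ≤ (LinearMap.range φ).comap (μ g) := by
  rintro _ ⟨x, rfl⟩
  exact ⟨ρ g x, hφ g x⟩

lemma rational_sub {V : Type} [AddCommGroup V] [Module k V] {ν : Representation k G V}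
    (hν : Rational O ν) (D : Submodule k V) (hD : ∀ g, D ≤ D.comap (ν g)) :
    Rational O (ν.subrepresentation D hD) :=
  rational_of_injective hν D.subtype (fun _ _ => rfl) D.injective_subtype

/-- **the kernel has a good filtration** -/
theorem good_ker (hB : Basics O B U) (hF : Facts O hO B U) (hP : Rational O ρ)
    (hPg : Good hO B ρ) (hPr : Module.rank k P ≤ Cardinal.aleph0)
    {φ : P →ₗ[k] M} (hφ : Eqv ρ μ φ) (hsurj : ∀ m, UInv U μ m → ∃ x, UInv U ρ x ∧ φ x = m) :
    Good hO B (ρ.subrepresentation (LinearMap.ker φ) (ker_stable hφ)) := by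
  set κ := ρ.subrepresentation (LinearMap.ker φ) (ker_stable hφ) with hκ
  refine hF.criterion (LinearMap.ker φ) κ (rational_sub hP _ _)
    ((Submodule.rank_le _).trans hPr) ?_
  intro χ E _ _ ε i q hE hse
  have hfin := hF.finite_ind χ
  -- extend the inclusion of the kernel
  obtain ⟨F, hF1, hF2⟩ := hF.ext_one _ _ _ _ κ ε (weylRep hO χ) ρ i q (rational_sub hP _ _) hE
    (rational_weyl hB hF χ) hP hse inferInstance (weylFiltered_weyl χ) hPg
    (LinearMap.ker φ).subtype (fun _ _ => rfl)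
  -- the induced map from the Weyl module to `M`
  obtain ⟨h, hh, hhq⟩ := factor_eqv (ε := ε) (ω := weylRep hO χ) (ρ := μ) q hse.surj hse.eqv_q
    (φ ∘ₗ F) (fun g e => by
      show φ (F (ε g e)) = μ g (φ (F e))
      rw [hF1, hφ]) (fun e he => by
      obtain ⟨x, rfl⟩ := (hse.exact e).1 he
      show φ (F (i x)) = 0
      rw [hF2]
      exact x.2)
  -- lift it
  have h1 : IsEig χ μ (h (ev χ)) := eig_map hh (ev_eig χ)
  obtain ⟨x, hx, hxe⟩ := hsurj _ (uinv_of_eig hB h1)
  obtain ⟨x', hx', hxe'⟩ := eig_component (χ := χ) hφ (hF.torus P ρ hP x hx) (by rw [hxe]; exact h1)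
  obtain ⟨h', hh', hh'e⟩ := weyl_univ (hO := hO) hP hx'
  have h2 : φ ∘ₗ h' = h := by
    refine weyl_ext (hO := hO) (ρ := μ) (fun g η => ?_) hh ?_
    · show φ (h' (weylRep hO χ g η)) = μ g (φ (h' η))
      rw [hh', hφ]
    · show φ (h' (ev χ)) = _
      rw [hh'e, hxe', hxe]
  have h3 : ∀ e, φ (h' (q e)) = φ (F e) := fun e => by
    have := LinearMap.congr_fun h2 (q e)
    rw [hhq] at this
    exact this
  -- the retraction
  let r : E →ₗ[k] LinearMap.ker φ := (F - h' ∘ₗ q).codRestrict (LinearMap.ker φ) (fun e => by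
    show φ (F e - h' (q e)) = 0
    rw [map_sub, h3, sub_self])
  have hr : ∀ e, ((r e : LinearMap.ker φ) : P) = F e - h' (q e) := fun _ => rfl
  refine ⟨r, fun g e => Subtype.ext ?_, fun x => Subtype.ext ?_⟩
  · have e1 : ((κ g (r e) : LinearMap.ker φ) : P) = ρ g (r e : LinearMap.ker φ) := rfl
    rw [e1, hr, hr, hF1, hse.eqv_q, hh', map_sub]
  · have e1 : q (i x) = 0 := (hse.exact _).2 ⟨x, rfl⟩
    rw [hr, hF2, e1, map_zero, sub_zero]
    rfl

/-- homomorphisms from a module with a Weyl filtration to a quotient `M / N` lift to `M` if `N` has a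
good filtration -/
theorem lift_quot (hF : Facts O hO B U) {W : Type} [AddCommGroup W] [Module k W]
    {ω : Representation k G W} (hω : Rational O ω) (hWf : Module.Finite k W)
    (hWF : WeylFiltered hO B ω) (hM : Rational O μ) {N : Submodule k M}
    (hNst : ∀ g, N ≤ N.comap (μ g)) (hNg : Good hO B (μ.subrepresentation N hNst))
    {h : W →ₗ[k] M ⧸ N} (hh : Eqv ω (μ.quotient N hNst) h) :
    ∃ h' : W →ₗ[k] M, Eqv ω μ h' ∧ ∀ η, N.mkQ (h' η) = h η := by
  set ν := μ.subrepresentation N hNst with hν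
  have hNr : Rational O ν := rational_sub hM _ _
  have hπe : Eqv μ (μ.quotient N hNst) N.mkQ := fun _ _ => rfl
  obtain ⟨D, hD⟩ : ∃ D : Submodule k (M × W), ∀ x, x ∈ D ↔ N.mkQ x.1 = h x.2 :=
    ⟨LinearMap.eqLocus (N.mkQ ∘ₗ LinearMap.fst k M _) (h ∘ₗ LinearMap.snd k M _), fun _ => Iff.rfl⟩
  have hDst : ∀ g, D ≤ D.comap ((μ.prod ω) g) := by
    intro g x hx
    refine (hD _).2 ?_
    show N.mkQ (μ g x.1) = h (ω g x.2)
    rw [hπe, hh, (hD x).1 hx]
  set ε := (μ.prod ω).subrepresentation D hDst with hε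
  have hεr : Rational O ε := rational_sub (rational_prod hM hω) D hDst
  let i : N →ₗ[k] D := ((LinearMap.inl k M W) ∘ₗ N.subtype).codRestrict D
    (fun x => by
      refine (hD _).2 ?_
      show N.mkQ (x : M) = h 0
      rw [map_zero]
      exact (Submodule.Quotient.mk_eq_zero N).2 x.2)
  have hi : ∀ x, ((i x : D) : M × W) = ((x : M), 0) := fun _ => rfl
  let q : D →ₗ[k] W := (LinearMap.snd k M _) ∘ₗ D.subtype
  have hq : ∀ x : D, q x = (x : M × W).2 := fun _ => rfl
  have hse : ShortExact ν ε ω i q := by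
    refine ⟨fun g x => Subtype.ext ?_, fun g x => rfl, fun x y hxy => ?_, fun η => ?_, fun e => ?_⟩
    · show ((μ g x : M), (0 : W)) = (μ g (x : M), ω g 0)
      rw [map_zero]
    · have := congrArg (fun z : D => (z : M × W).1) hxy
      exact Subtype.ext this
    · obtain ⟨m, hm⟩ := N.mkQ_surjective (h η)
      exact ⟨⟨(m, η), (hD _).2 hm⟩, rfl⟩
    · constructor
      · intro he
        have h1 := (hD e).1 e.2
        rw [← hq, he, map_zero] at h1
        have h2 : (e : M × W).1 ∈ N := (Submodule.Quotient.mk_eq_zero N).1 h1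
        refine ⟨⟨_, h2⟩, Subtype.ext ?_⟩
        rw [hi]
        exact Prod.ext rfl (by rw [← hq, he])
      · rintro ⟨x, rfl⟩
        rfl
  obtain ⟨F, hF1, hF2⟩ := hF.ext_one _ _ _ _ ν ε ω ν i q hNr hεr hω hNr hse hWf hWF hNg
    LinearMap.id (fun _ _ => rfl)
  obtain ⟨h', hh', hh'q⟩ := factor_eqv (ε := ε) (ω := ω) (ρ := μ) q hse.surj hse.eqv_q
    ((LinearMap.fst k M _) ∘ₗ D.subtype - N.subtype ∘ₗ F) (fun g e => by
      show μ g (e : M × W).1 - ((F (ε g e) : N) : M) = μ g ((e : M × W).1 - (F e : N))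
      rw [hF1, map_sub]
      rfl) (fun e he => by
      obtain ⟨x, rfl⟩ := (hse.exact e).1 he
      show (i x : M × W).1 - ((F (i x) : N) : M) = 0
      rw [hF2, hi]
      exact sub_self _)
  refine ⟨h', hh', fun η => ?_⟩
  obtain ⟨e, rfl⟩ := hse.surj η
  rw [hh'q]
  show N.mkQ ((e : M × W).1 - ((F e : N) : M)) = _
  rw [map_sub, (hD e).1 e.2]
  have : N.mkQ ((F e : N) : M) = 0 := (Submodule.Quotient.mk_eq_zero N).2 (F e).2
  rw [this, sub_zero]
  rfl

/-- **the morphism is surjective** -/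
theorem surjective (hB : Basics O B U) (hF : Facts O hO B U) (hP : Rational O ρ)
    (hPg : Good hO B ρ) (hPr : Module.rank k P ≤ Cardinal.aleph0) (hM : Rational O μ)
    {φ : P →ₗ[k] M} (hφ : Eqv ρ μ φ) (hsurj : ∀ m, UInv U μ m → ∃ x, UInv U ρ x ∧ φ x = m) :
    Function.Surjective φ := by
  have hK := good_ker hB hF hP hPg hPr hφ hsurj
  set N := LinearMap.range φ with hN
  have hNst : ∀ g, N ≤ N.comap (μ g) := range_stable hφ
  have hNr : Rational O (μ.subrepresentation N hNst) := rational_sub hM _ _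
  -- the image has a good filtration
  have hNg : Good hO B (μ.subrepresentation N hNst) := by
    refine hF.quotient (LinearMap.ker φ) P N (ρ.subrepresentation (LinearMap.ker φ) (ker_stable hφ))
      ρ _ (LinearMap.ker φ).subtype φ.rangeRestrict (rational_sub hP _ _) hP hNr
      ⟨fun _ _ => rfl, fun g x => Subtype.ext (hφ g x), (LinearMap.ker φ).injective_subtype,
        φ.surjective_rangeRestrict, fun e => ?_⟩ hK hPg
    constructor
    · intro h
      exact ⟨⟨e, congrArg Subtype.val h⟩, rfl⟩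
    · rintro ⟨x, rfl⟩
      exact Subtype.ext x.2
  by_contra hns
  have hne : N ≠ ⊤ := fun h => hns (LinearMap.range_eq_top.1 h)
  have hπe : Eqv μ (μ.quotient N hNst) N.mkQ := fun _ _ => rfl
  have hQr : Rational O (μ.quotient N hNst) := rational_of_surjective hM N.mkQ hπe N.mkQ_surjective
  have hQn : Nontrivial (M ⧸ N) := Submodule.Quotient.nontrivial_iff.2 hne
  obtain ⟨χ, v, hv0, hv⟩ := hF.lie_kolchin (M ⧸ N) _ hQr hQn
  have hfin := hF.finite_ind χ
  obtain ⟨h, hh, hhv⟩ := weyl_univ (hO := hO) hQr hv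
  obtain ⟨h', hh', h1⟩ := lift_quot hF (rational_weyl hB hF χ) inferInstance
    (weylFiltered_weyl χ) hM hNst hNg hh
  obtain ⟨x, _, hx⟩ := hsurj _ (uinv_of_eig hB (eig_map hh' (ev_eig χ)))
  apply hv0
  rw [← hhv, ← h1, ← hx]
  exact (Submodule.Quotient.mk_eq_zero N).2 ⟨x, rfl⟩

end Pool.Agent.J6H4.TR
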