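import Pool.Agent.J6H4.TR.Defs

/-!
Rational modules: submodules, quotients, products, tensor products, duals.
-/

set_option autoImplicit false
set_option linter.unusedSectionVars false

namespace Pool.Agent.J6H4.TR

open TensorProduct

variable {k : Type} [Field k] {G : Type} [Group G] {O : Subalgebra k (G → k)}

section
variable {V W : Type} [AddCommGroup V] [Module k V] [AddCommGroup W] [Module k W]

lemma regMaps_mk {f : G → k} (hf : f ∈ O) (w : V) : (fun g => f g • w) ∈ RegMaps O V :=
  Submodule.subset_span ⟨f, hf, w, rfl⟩

lemma regMaps_map (L : V →ₗ[k] W) {F : G → V} (hF : F ∈ RegMaps O V) :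
    (fun g => L (F g)) ∈ RegMaps O W := by
  unfold RegMaps at hF
  induction hF using Submodule.span_induction with
  | mem F h =>
    obtain ⟨f, hf, w, rfl⟩ := h
    simp only [map_smul]
    exact regMaps_mk hf _
  | zero =>
    simp only [Pi.zero_apply, map_zero]
    exact (RegMaps O W).zero_mem
  | add F F' _ _ h1 h2 =>
    simp only [Pi.add_apply, map_add]
    exact (RegMaps O W).add_mem h1 h2
  | smul c F _ h =>
    simp only [Pi.smul_apply, map_smul]
    exact (RegMaps O W).smul_mem c h

/-- coefficients -/
lemma regMaps_coeff (ξ : V →ₗ[k] k) {F : G → V} (hF : F ∈ RegMaps O V) :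
    (fun g => ξ (F g)) ∈ O := by
  unfold RegMaps at hF
  induction hF using Submodule.span_induction with
  | mem F h =>
    obtain ⟨f, hf, w, rfl⟩ := h
    simp only [map_smul, smul_eq_mul]
    have : (fun g => f g * ξ w) = ξ w • f := by
      funext g
      simp [mul_comm]
    rw [this]
    exact O.smul_mem hf _
  | zero =>
    simp only [Pi.zero_apply, map_zero]
    exact O.zero_mem
  | add F F' _ _ h1 h2 =>
    simp only [Pi.add_apply, map_add]
    exact O.add_mem h1 h2
  | smul c F _ h =>
    simp only [Pi.smul_apply, map_smul]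
    exact O.smul_mem h c

/-- the values of a regular map are in a finite-dimensional subspace -/
lemma regMaps_finite {F : G → V} (hF : F ∈ RegMaps O V) :
    ∃ W : Submodule k V, Module.Finite k W ∧ ∀ g, F g ∈ W := by
  unfold RegMaps at hF
  induction hF using Submodule.span_induction with
  | mem F h =>
    obtain ⟨f, hf, w, rfl⟩ := h
    exact ⟨Submodule.span k {w}, inferInstance,
      fun g => Submodule.smul_mem _ _ (Submodule.mem_span_singleton_self w)⟩
  | zero => exact ⟨⊥, inferInstance, fun g => Submodule.zero_mem _⟩
  | add F F' _ _ h1 h2 =>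
    obtain ⟨W1, hW1, h1⟩ := h1
    obtain ⟨W2, hW2, h2⟩ := h2
    exact ⟨W1 ⊔ W2, inferInstance, fun g => Submodule.add_mem _
      (Submodule.mem_sup_left (h1 g)) (Submodule.mem_sup_right (h2 g))⟩
  | smul c F _ h =>
    obtain ⟨W1, hW1, h1⟩ := h
    exact ⟨W1, hW1, fun g => Submodule.smul_mem _ _ (h1 g)⟩

lemma rational_of_injective {ρ : Representation k G V} {σ : Representation k G W}
    (hσ : Rational O σ) (f : V →ₗ[k] W) (hf : Eqv ρ σ f) (hi : Function.Injective f) :
    Rational O ρ := by
  obtain ⟨L, hL⟩ := f.exists_leftInverse_of_injective (LinearMap.ker_eq_bot.2 hi)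
  intro v
  have h := regMaps_map L (hσ (f v))
  have e : (fun g => L (σ g (f v))) = fun g => ρ g v := by
    funext g
    rw [← hf g v]
    exact LinearMap.congr_fun hL (ρ g v)
  rwa [e] at h

lemma rational_of_surjective {ρ : Representation k G V} {σ : Representation k G W}
    (hρ : Rational O ρ) (f : V →ₗ[k] W) (hf : Eqv ρ σ f) (hs : Function.Surjective f) :
    Rational O σ := by
  intro w
  obtain ⟨v, rfl⟩ := hs w
  have h := regMaps_map f (hρ v)
  have e : (fun g => f (ρ g v)) = fun g => σ g (f v) := by
    funext g
    exact hf g v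
  rwa [e] at h

lemma rational_prod {ρ : Representation k G V} {σ : Representation k G W}
    (hρ : Rational O ρ) (hσ : Rational O σ) : Rational O (ρ.prod σ) := by
  rintro ⟨v, w⟩
  have h1 := regMaps_map (LinearMap.inl k V W) (hρ v)
  have h2 := regMaps_map (LinearMap.inr k V W) (hσ w)
  have h3 := (RegMaps O (V × W)).add_mem h1 h2
  have e : ((fun g => LinearMap.inl k V W (ρ g v)) + fun g => LinearMap.inr k V W (σ g w)) =
      fun g => ρ.prod σ g (v, w) := by
    funext g
    simp [Representation.prod]
  rwa [e] at h3

lemma regMaps_tmul {F : G → V} {F' : G → W} (hF : F ∈ RegMaps O V) (hF' : F' ∈ RegMaps O W) :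
    (fun g => F g ⊗ₜ[k] F' g) ∈ RegMaps O (V ⊗[k] W) := by
  unfold RegMaps at hF
  induction hF using Submodule.span_induction with
  | mem F h =>
    obtain ⟨f, hf, w, rfl⟩ := h
    unfold RegMaps at hF'
    induction hF' using Submodule.span_induction with
    | mem F h =>
      obtain ⟨f', hf', w', rfl⟩ := h
      have e : (fun g => (f g • w) ⊗ₜ[k] (f' g • w')) = fun g => (f * f') g • (w ⊗ₜ[k] w') := by
        funext g
        rw [TensorProduct.smul_tmul_smul]
        rfl
      rw [e]
      exact regMaps_mk (O.mul_mem hf hf') _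
    | zero =>
      simp only [Pi.zero_apply, TensorProduct.tmul_zero]
      exact (RegMaps O _).zero_mem
    | add F F' _ _ h1 h2 =>
      simp only [Pi.add_apply, TensorProduct.tmul_add]
      exact (RegMaps O _).add_mem h1 h2
    | smul c F _ h =>
      simp only [Pi.smul_apply, TensorProduct.tmul_smul]
      exact (RegMaps O _).smul_mem c h
  | zero =>
    simp only [Pi.zero_apply, TensorProduct.zero_tmul]
    exact (RegMaps O _).zero_mem
  | add F F' _ _ h1 h2 =>
    simp only [Pi.add_apply, TensorProduct.add_tmul]
    exact (RegMaps O _).add_mem h1 h2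
  | smul c F _ h =>
    simp only [Pi.smul_apply, ← TensorProduct.smul_tmul']
    exact (RegMaps O _).smul_mem c h

lemma rational_tprod {ρ : Representation k G V} {σ : Representation k G W}
    (hρ : Rational O ρ) (hσ : Rational O σ) : Rational O (ρ.tprod σ) := by
  intro x
  induction x using TensorProduct.induction_on with
  | zero =>
    simp only [map_zero]
    exact (RegMaps O _).zero_mem
  | tmul v w =>
    simp only [Representation.tprod_apply, TensorProduct.map_tmul]
    exact regMaps_tmul (hρ v) (hσ w)
  | add x y hx hy =>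
    simp only [map_add]
    exact (RegMaps O _).add_mem hx hy

lemma rational_dual [Module.Finite k V] {ρ : Representation k G V} (hρ : Rational O ρ)
    (hinv : ∀ f ∈ O, (fun g => f g⁻¹) ∈ O) : Rational O ρ.dual := by
  intro ξ
  let b := Module.finBasis k V
  have h1 : ∀ j, (fun g => ξ (ρ g⁻¹ (b j))) ∈ O := fun j =>
    hinv _ (regMaps_coeff ξ (hρ (b j)))
  have h2 : (∑ j, fun g => ξ (ρ g⁻¹ (b j)) • b.coord j) ∈ RegMaps O (Module.Dual k V) :=
    Submodule.sum_mem _ fun j _ => regMaps_mk (h1 j) _
  have e : (∑ j, fun g => ξ (ρ g⁻¹ (b j)) • b.coord j) = fun g => ρ.dual g ξ := by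
    funext g
    refine b.ext fun i => ?_
    simp only [Finset.sum_apply, LinearMap.sum_apply, LinearMap.smul_apply, Module.Basis.coord_apply,
      Module.Basis.repr_self, smul_eq_mul, Representation.dual_apply, Module.Dual.transpose_apply,
      LinearMap.comp_apply]
    rw [Finset.sum_eq_single i]
    · simp
    · intro j _ hj
      rw [Finsupp.single_eq_of_ne (by simpa using hj)]
      simp
    · simp
  rwa [e] at h2

end

/-- the product of regular maps to functions -/
lemma regMaps_mul {F F' : G → (G → k)} (hF : F ∈ RegMaps O (G → k)) (hF' : F' ∈ RegMaps O (G → k)) :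
    (fun g => F g * F' g) ∈ RegMaps O (G → k) := by
  unfold RegMaps at hF
  induction hF using Submodule.span_induction with
  | mem F h =>
    obtain ⟨f, hf, w, rfl⟩ := h
    unfold RegMaps at hF'
    induction hF' using Submodule.span_induction with
    | mem F h =>
      obtain ⟨f', hf', w', rfl⟩ := h
      have e : (fun g => (f g • w) * (f' g • w')) = fun g => (f * f') g • (w * w') := by
        funext g
        rw [smul_mul_smul_comm]
        rfl
      rw [e]
      exact regMaps_mk (O.mul_mem hf hf') _
    | zero =>
      simp only [Pi.zero_apply, mul_zero]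
      exact (RegMaps O _).zero_mem
    | add F F' _ _ h1 h2 =>
      simp only [Pi.add_apply, mul_add]
      exact (RegMaps O _).add_mem h1 h2
    | smul c F _ h =>
      simp only [Pi.smul_apply, mul_smul_comm]
      exact (RegMaps O _).smul_mem c h
  | zero =>
    simp only [Pi.zero_apply, zero_mul]
    exact (RegMaps O _).zero_mem
  | add F F' _ _ h1 h2 =>
    simp only [Pi.add_apply, add_mul]
    exact (RegMaps O _).add_mem h1 h2
  | smul c F _ h =>
    simp only [Pi.smul_apply, smul_mul_assoc]
    exact (RegMaps O _).smul_mem c h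

/-- the induced modules are rational -/
lemma rational_ind (hO : TransStable O)
    (hrat : ∀ f ∈ O, (fun h => trans k G h f) ∈ RegMaps O (G → k)) {B : Subgroup G}
    (χ : Weight O B) : Rational O (indRep hO χ) := by
  intro f
  obtain ⟨L, hL⟩ := (Ind χ).subtype.exists_leftInverse_of_injective
    (LinearMap.ker_eq_bot.2 (Ind χ).injective_subtype)
  have h := regMaps_map L (hrat f.1 f.2.1)
  have e : (fun g => L (trans k G g f.1)) = fun g => indRep hO χ g f := by
    funext g
    exact LinearMap.congr_fun hL (indRep hO χ g f)
  rwa [e] at h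

end Pool.Agent.J6H4.TR
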