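import Pool.Agent.J6H4.TR.Rat

/-!
The universal property of the Weyl modules.
-/

set_option autoImplicit false
set_option linter.unusedSectionVars false

namespace Pool.Agent.J6H4.TR

open TensorProduct

variable {k : Type} [Field k] {G : Type} [Group G] {O : Subalgebra k (G → k)}
  {hO : TransStable O} {B : Subgroup G}

/-- the value at `1`, an element of the Weyl module -/
def ev (χ : Weight O B) : Module.Dual k (Ind χ) where
  toFun f := f.1 1
  map_add' _ _ := rfl
  map_smul' _ _ := rfl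

lemma ev_apply (χ : Weight O B) (f : Ind χ) : ev χ f = f.1 1 := rfl

lemma indRep_apply (χ : Weight O B) (h g : G) (f : Ind χ) :
    (indRep hO χ h f).1 g = f.1 (h⁻¹ * g) := rfl

lemma weyl_apply (χ : Weight O B) (h : G) (η : Module.Dual k (Ind χ)) (f : Ind χ) :
    weylRep hO χ h η f = η (indRep hO χ h⁻¹ f) := rfl

lemma ev_eig (χ : Weight O B) : IsEig χ (weylRep hO χ) (ev χ) := by
  intro b
  refine LinearMap.ext fun f => ?_
  rw [weyl_apply, ev_apply, indRep_apply, inv_inv, mul_one]
  rw [LinearMap.smul_apply, ev_apply, smul_eq_mul, ← f.2.2 1 b, one_mul]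

/-- the Weyl module is generated by `ev` -/
lemma ev_gen (χ : Weight O B) [Module.Finite k (Ind χ)] :
    Submodule.span k (Set.range fun g => weylRep hO χ g (ev χ)) = ⊤ := by
  set D := Submodule.span k (Set.range fun g => weylRep hO χ g (ev χ)) with hD
  have h1 : D.dualCoannihilator = ⊥ := by
    rw [eq_bot_iff]
    intro f hf
    rw [Submodule.mem_dualCoannihilator] at hf
    rw [Submodule.mem_bot]
    apply Subtype.ext
    funext g
    have h2 := hf (weylRep hO χ g (ev χ)) (Submodule.subset_span ⟨g, rfl⟩)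
    rw [weyl_apply, ev_apply, indRep_apply, inv_inv, mul_one] at h2
    exact h2
  have h2 := Subspace.dualCoannihilator_dualAnnihilator_eq (W := D)
  rw [h1, Submodule.dualAnnihilator_bot] at h2
  exact h2.symm

variable {V W : Type} [AddCommGroup V] [Module k V] [AddCommGroup W] [Module k W]

/-- equivariant maps from a Weyl module which agree on `ev` -/
lemma weyl_ext {χ : Weight O B} [Module.Finite k (Ind χ)] {ρ : Representation k G V}
    {f f' : Module.Dual k (Ind χ) →ₗ[k] V} (hf : Eqv (weylRep hO χ) ρ f)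
    (hf' : Eqv (weylRep hO χ) ρ f') (h : f (ev χ) = f' (ev χ)) : f = f' := by
  have h1 : Submodule.span k (Set.range fun g => weylRep hO χ g (ev χ)) ≤ LinearMap.eqLocus f f' := by
    rw [Submodule.span_le]
    rintro _ ⟨g, rfl⟩
    show f _ = f' _
    rw [hf, hf', h]
  rw [ev_gen] at h1
  exact LinearMap.ext fun x => h1 (Submodule.mem_top (x := x))

/-- the universal property for finite-dimensional modules -/
lemma weyl_univ_fin {χ : Weight O B} [Module.Finite k V] {ρ : Representation k G V}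
    (hρ : Rational O ρ) {v : V} (hv : IsEig χ ρ v) :
    ∃ f : Module.Dual k (Ind χ) →ₗ[k] V, Eqv (weylRep hO χ) ρ f ∧ f (ev χ) = v := by
  let Φ : Module.Dual k V →ₗ[k] Ind χ :=
    { toFun := fun ξ => ⟨fun g => ξ (ρ g v), regMaps_coeff ξ (hρ v), fun g b => by
        show ξ (ρ (g * b) v) = _
        rw [map_mul]
        show ξ (ρ g (ρ b v)) = _
        rw [hv b, map_smul, map_smul, smul_eq_mul]⟩
      map_add' := fun _ _ => rfl
      map_smul' := fun _ _ => rfl }
  have hΦ : ∀ ξ g, (Φ ξ).1 g = ξ (ρ g v) := fun _ _ => rfl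
  let f : Module.Dual k (Ind χ) →ₗ[k] V := (Module.evalEquiv k V).symm.toLinearMap ∘ₗ Φ.dualMap
  have hf : ∀ (η : Module.Dual k (Ind χ)) (ξ : Module.Dual k V), ξ (f η) = η (Φ ξ) := by
    intro η ξ
    show ξ ((Module.evalEquiv k V).symm (Φ.dualMap η)) = _
    rw [Module.apply_evalEquiv_symm_apply]
    rfl
  refine ⟨f, fun g η => ?_, ?_⟩
  · refine (Module.forall_dual_apply_eq_zero_iff k _).1 (fun ξ => ?_) |> sub_eq_zero.1
    rw [map_sub, sub_eq_zero, hf, weyl_apply]
    have e : ξ (ρ g (f η)) = (ξ ∘ₗ ρ g) (f η) := rfl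
    rw [e, hf]
    congr 1
    apply Subtype.ext
    funext x
    rw [indRep_apply, hΦ, hΦ, inv_inv, map_mul]
    rfl
  · refine (Module.forall_dual_apply_eq_zero_iff k _).1 (fun ξ => ?_) |> sub_eq_zero.1
    rw [map_sub, sub_eq_zero, hf, ev_apply, hΦ, map_one]
    rfl

/-- **The universal property of the Weyl module.** -/
lemma weyl_univ {χ : Weight O B} {ρ : Representation k G V}
    (hρ : Rational O ρ) {v : V} (hv : IsEig χ ρ v) :
    ∃ f : Module.Dual k (Ind χ) →ₗ[k] V, Eqv (weylRep hO χ) ρ f ∧ f (ev χ) = v := by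
  obtain ⟨W, hW, hWv⟩ := regMaps_finite (hρ v)
  set D := Submodule.span k (Set.range fun g => ρ g v) with hD
  have hDW : D ≤ W := by
    rw [hD, Submodule.span_le]
    rintro _ ⟨g, rfl⟩
    exact hWv g
  have : Module.Finite k D := Submodule.finiteDimensional_of_le hDW
  have hst : ∀ g, D ≤ D.comap (ρ g) := by
    intro g
    rw [hD, Submodule.span_le]
    rintro _ ⟨h, rfl⟩
    show ρ g (ρ h v) ∈ D
    refine Submodule.subset_span ⟨g * h, ?_⟩
    simp only [map_mul]
    rfl
  have hvD : v ∈ D := Submodule.subset_span ⟨1, by simp⟩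
  have hr : Rational O (ρ.subrepresentation D hst) :=
    rational_of_injective hρ D.subtype (fun g v => rfl) D.injective_subtype
  obtain ⟨f, hf, hfv⟩ := weyl_univ_fin (hO := hO) (χ := χ) hr (v := ⟨v, hvD⟩)
    (fun b => Subtype.ext (hv b))
  refine ⟨D.subtype ∘ₗ f, fun g x => ?_, ?_⟩
  · show ((f (weylRep hO χ g x) : D) : V) = ρ g (f x : D)
    rw [hf]
    rfl
  · show ((f (ev χ) : D) : V) = v
    rw [hfv]

/-- factor a map through a surjection -/
lemma factor {E W V : Type} [AddCommGroup E] [Module k E] [AddCommGroup W] [Module k W]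
    [AddCommGroup V] [Module k V] (q : E →ₗ[k] W) (hq : Function.Surjective q) (L : E →ₗ[k] V)
    (h : ∀ e, q e = 0 → L e = 0) : ∃ L' : W →ₗ[k] V, ∀ e, L' (q e) = L e := by
  have hk : LinearMap.ker q ≤ LinearMap.ker L := fun e he => h e he
  refine ⟨(LinearMap.ker q).liftQ L hk ∘ₗ
    (q.quotKerEquivOfSurjective hq).symm.toLinearMap, fun e => ?_⟩
  have e1 : (q.quotKerEquivOfSurjective hq).symm (q e) = Submodule.Quotient.mk e := by
    rw [LinearEquiv.symm_apply_eq]
    rfl
  show (LinearMap.ker q).liftQ L hk ((q.quotKerEquivOfSurjective hq).symm (q e)) = _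
  rw [e1]
  rfl

lemma factor_eqv {E W V : Type} [AddCommGroup E] [Module k E] [AddCommGroup W] [Module k W]
    [AddCommGroup V] [Module k V] {ε : Representation k G E} {ω : Representation k G W}
    {ρ : Representation k G V} (q : E →ₗ[k] W) (hq : Function.Surjective q) (hqe : Eqv ε ω q)
    (L : E →ₗ[k] V) (hL : Eqv ε ρ L)
    (h : ∀ e, q e = 0 → L e = 0) : ∃ L' : W →ₗ[k] V, Eqv ω ρ L' ∧ ∀ e, L' (q e) = L e := by
  obtain ⟨L', hL'⟩ := factor q hq L h
  refine ⟨L', fun g w => ?_, hL'⟩
  obtain ⟨e, rfl⟩ := hq w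
  rw [← hqe, hL', hL', hL]

/-- semi-invariants of distinct weights are independent -/
lemma eig_indep {ρ : Representation k G V} (s : Finset (Weight O B)) (z : Weight O B → V)
    (hz : ∀ χ ∈ s, IsEig χ ρ (z χ)) (h0 : ∑ χ ∈ s, z χ = 0) : ∀ χ ∈ s, z χ = 0 := by
  have hli : LinearIndependent k (fun χ : Weight O B => (χ.1 : B → k)) :=
    (linearIndependent_monoidHom B k).comp (fun χ : Weight O B => χ.1) Subtype.val_injective
  intro χ hχ
  refine (Module.forall_dual_apply_eq_zero_iff k _).1 fun ξ => ?_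
  refine linearIndependent_iff'.1 hli s (fun χ => ξ (z χ)) ?_ χ hχ
  funext b
  have h1 : ξ (ρ b (∑ χ ∈ s, z χ)) = 0 := by rw [h0, map_zero, map_zero]
  rw [map_sum, map_sum] at h1
  rw [Finset.sum_apply]
  rw [show (0 : B → k) b = 0 from rfl, ← h1]
  refine Finset.sum_congr rfl fun χ hχ => ?_
  rw [hz χ hχ b, map_smul, Pi.smul_apply, smul_eq_mul, smul_eq_mul, mul_comm]

lemma eig_map {χ : Weight O B} {ρ : Representation k G V} {σ : Representation k G W}
    {f : V →ₗ[k] W} (hf : Eqv ρ σ f) {v : V} (hv : IsEig χ ρ v) : IsEig χ σ (f v) := by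
  intro b
  rw [← hf, hv, map_smul]

/-- the eigenspace -/
def eig (χ : Weight O B) (ρ : Representation k G V) : Submodule k V where
  carrier := {v | IsEig χ ρ v}
  zero_mem' b := by simp
  add_mem' := by
    intro a b ha hb c
    rw [map_add, ha, hb, smul_add]
  smul_mem' := by
    intro a b hb c
    rw [map_smul, hb, smul_comm]

/-- the component of weight `χ` -/
lemma eig_component {χ : Weight O B} {ρ : Representation k G V} {σ : Representation k G W}
    {f : V →ₗ[k] W} (hf : Eqv ρ σ f) {x : V}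
    (hx : x ∈ Submodule.span k {w | ∃ χ : Weight O B, IsEig χ ρ w}) (h : IsEig χ σ (f x)) :
    ∃ x', IsEig χ ρ x' ∧ f x' = f x := by
  classical
  have h1 : x ∈ ⨆ ψ : Weight O B, eig ψ ρ := by
    have : Submodule.span k {w | ∃ χ : Weight O B, IsEig χ ρ w} ≤ ⨆ ψ : Weight O B, eig ψ ρ := by
      rw [Submodule.span_le]
      rintro w ⟨ψ, hψ⟩
      exact Submodule.mem_iSup_of_mem ψ hψ
    exact this hx
  rw [Submodule.mem_iSup_iff_exists_finsupp] at h1
  obtain ⟨y, hy, hsum⟩ := h1
  refine ⟨y χ, hy χ, ?_⟩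
  have h2 := eig_indep (ρ := σ) (insert χ y.support)
    (fun ψ => f (y ψ) - if ψ = χ then f x else 0) (fun ψ _ => by
      by_cases hψ : ψ = χ
      · subst hψ
        rw [if_pos rfl]
        exact (eig ψ σ).sub_mem (eig_map hf (hy ψ)) h
      · rw [if_neg hψ, sub_zero]
        exact eig_map hf (hy ψ)) (by
      rw [Finset.sum_sub_distrib, Finset.sum_ite_eq', if_pos (Finset.mem_insert_self _ _),
        sub_eq_zero, ← map_sum]
      congr 1
      rw [← hsum, Finsupp.sum]
      symm
      refine Finset.sum_subset (Finset.subset_insert _ _) fun ψ _ hψ => ?_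
      exact Finsupp.notMem_support_iff.1 hψ) χ (Finset.mem_insert_self _ _)
  rw [if_pos rfl, sub_eq_zero] at h2
  exact h2

end Pool.Agent.J6H4.TR
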